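import Mathlib
import Pool.Agent.H925R3.DC.Stubs

/-! Double covers of products of elliptic curves: many primes whose shifts divide one integer. -/

namespace Pool.Agent.H318R5.DC

open Finset Filter
open Pool.Agent.H925R3.DC Pool.Agent.H410R2

theorem prm_dvd {X d : ℝ} (hX : 1 ≤ X) (hd0 : 0 < d) {p : ℕ} {e : ℤ} (he : e = 1 ∨ e = -1)
    (hp2 : 2 < p) (hpX : (p : ℝ) ≤ X) {q : ℕ} (hq : q ∈ QQ d X) (hdvd : (q : ℤ) ∣ (p : ℤ) + e) :
    (p : ℤ) + e ∣ (((⌊4 * X ^ (1 / 2 + 2 * d)⌋₊.factorial) ^ 2 : ℕ) : ℤ) := by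
  have hX0 : 0 < X := by linarith
  obtain ⟨t, ht⟩ : ∃ t : ℕ, (t : ℤ) = (p : ℤ) + e := ⟨((p : ℤ) + e).toNat, by
    rcases he with rfl | rfl <;> omega⟩
  have ht0 : 0 < t := by rcases he with rfl | rfl <;> omega
  have htp : t ≤ p + 1 := by rcases he with rfl | rfl <;> omega
  rw [← ht] at hdvd ⊢
  obtain ⟨m, hm⟩ : q ∣ t := by exact_mod_cast hdvd
  have hm0 : 0 < m := by
    rcases Nat.eq_zero_or_pos m with h | h
    · rw [h, mul_zero] at hm
      omega
    · exact h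
  unfold QQ at hq
  rw [mem_filter, mem_Icc] at hq
  obtain ⟨⟨hq1, hq2⟩, -, hq3⟩ := hq
  set B : ℕ := ⌊4 * X ^ (1 / 2 + 2 * d)⌋₊ with hB
  have hqX : (q : ℝ) ≤ X ^ (1 / 2 - d) :=
    (Nat.cast_le.2 hq2).trans (Nat.floor_le (Real.rpow_nonneg hX0.le _))
  have hqB : q ≤ B := by
    rw [hB]
    apply Nat.le_floor
    have h1 : X ^ (1 / 2 - d) ≤ X ^ (1 / 2 + 2 * d) :=
      Real.rpow_le_rpow_of_exponent_le hX (by linarith)
    have h2 : 0 ≤ X ^ (1 / 2 + 2 * d) := Real.rpow_nonneg hX0.le _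
    linarith
  have hmB : m ≤ B := by
    rw [hB]
    apply Nat.le_floor
    have hs : 0 < X ^ (1 / 2 - 2 * d) := Real.rpow_pos_of_pos hX0 _
    have h1 : (m : ℝ) * X ^ (1 / 2 - 2 * d) ≤ (m : ℝ) * q :=
      mul_le_mul_of_nonneg_left hq3.le (Nat.cast_nonneg _)
    have h2 : (m : ℝ) * q = t := by
      rw [hm]
      push_cast
      ring
    have h3 : (t : ℝ) ≤ 2 * X := by
      have : (t : ℝ) ≤ (p : ℝ) + 1 := by exact_mod_cast htp
      linarith
    have h4 : X = X ^ (1 / 2 + 2 * d) * X ^ (1 / 2 - 2 * d) := by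
      rw [← Real.rpow_add hX0]
      have : (1 / 2 + 2 * d + (1 / 2 - 2 * d) : ℝ) = 1 := by ring
      rw [this, Real.rpow_one]
    have h5 : (m : ℝ) * X ^ (1 / 2 - 2 * d) ≤
        (2 * X ^ (1 / 2 + 2 * d)) * X ^ (1 / 2 - 2 * d) := by
      rw [mul_assoc, ← h4]
      linarith
    have h6 := le_of_mul_le_mul_right h5 hs
    have h7 : 0 ≤ X ^ (1 / 2 + 2 * d) := Real.rpow_nonneg hX0.le _
    linarith
  have h8 : t ∣ B.factorial ^ 2 := by
    rw [hm, sq]
    exact mul_dvd_mul (Nat.dvd_factorial hq1 hqB) (Nat.dvd_factorial hm0 hmB)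
  exact_mod_cast h8

theorem prm_log {X d : ℝ} (hX : 4 ≤ X) (hd0 : 0 < d) (hd1 : d ≤ 1 / 8) :
    Real.log ((⌊4 * X ^ (1 / 2 + 2 * d)⌋₊.factorial ^ 2 : ℕ) : ℝ) ≤
      16 * X ^ (1 / 2 + 2 * d) * Real.log X := by
  have hX0 : 0 < X := by linarith
  set B : ℕ := ⌊4 * X ^ (1 / 2 + 2 * d)⌋₊ with hB
  have hs : 1 ≤ X ^ (1 / 2 + 2 * d) := Real.one_le_rpow (by linarith) (by linarith)
  have hB1 : (B : ℝ) ≤ 4 * X ^ (1 / 2 + 2 * d) := Nat.floor_le (by positivity)
  have hB0 : 1 ≤ B := by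
    rw [hB]
    apply Nat.le_floor
    push_cast
    linarith
  have hBR : (1 : ℝ) ≤ B := by exact_mod_cast hB0
  have hlogX : 0 ≤ Real.log X := Real.log_nonneg (by linarith)
  have h1 : Real.log ((B.factorial ^ 2 : ℕ) : ℝ) = 2 * Real.log (B.factorial : ℝ) := by
    push_cast
    rw [Real.log_pow]
    norm_num
  have h2 : Real.log (B.factorial : ℝ) ≤ B * Real.log B := by
    rw [← Real.log_pow]
    apply Real.log_le_log (by exact_mod_cast Nat.factorial_pos _)
    exact_mod_cast Nat.factorial_le_pow B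
  have h3 : Real.log B ≤ 2 * Real.log X := by
    calc Real.log B ≤ Real.log (4 * X ^ (1 / 2 + 2 * d)) := Real.log_le_log (by linarith) hB1
      _ = Real.log 4 + (1 / 2 + 2 * d) * Real.log X := by
          rw [Real.log_mul (by norm_num) (by positivity), Real.log_rpow hX0]
      _ ≤ Real.log X + 1 * Real.log X := by
          apply add_le_add (Real.log_le_log (by norm_num) hX)
          exact mul_le_mul_of_nonneg_right (by linarith) hlogX
      _ = 2 * Real.log X := by ring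
  have h4 : (B : ℝ) * Real.log B ≤ 4 * X ^ (1 / 2 + 2 * d) * (2 * Real.log X) :=
    mul_le_mul hB1 h3 (Real.log_nonneg hBR) (by positivity)
  rw [h1]
  linarith

theorem prm_card {M : ℕ} {e : ℤ} {d X : ℝ} {D : ℕ} (hD : 0 < D) {S : Finset ℕ}
    (hS : ∀ p ∈ PP M e d X, 2 < p → ¬ p ∣ D → p ∈ S) :
    (PP M e d X).card ≤ S.card + (D + 3) := by
  classical
  have h1 : PP M e d X ⊆ S ∪ range (D + 3) := by
    intro p hp
    rw [mem_union, mem_range]
    by_cases h2 : 2 < p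
    · by_cases h3 : p ∣ D
      · right
        have := Nat.le_of_dvd hD h3
        omega
      · exact Or.inl (hS p hp h2 h3)
    · right
      omega
  calc (PP M e d X).card ≤ (S ∪ range (D + 3)).card := card_le_card h1
    _ ≤ S.card + (range (D + 3)).card := card_union_le _ _
    _ = S.card + (D + 3) := by rw [card_range]

theorem prm (hb : BVAP) (hp : PNTLog) (h1 : PRMQ) (h2 : PRMS) (h3 : PRMC) : PRM := by
  classical
  intro M D hM hD e he ε hε
  obtain ⟨d, hd0, hd1, hd2⟩ : ∃ d : ℝ, 0 < d ∧ d ≤ 1 / 8 ∧ 3 * d ≤ ε := by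
    refine ⟨min (ε / 3) (1 / 8), by positivity, min_le_right _ _, ?_⟩
    have := min_le_left (ε / 3) (1 / 8 : ℝ)
    linarith
  obtain ⟨X1, hX1⟩ := h2 hb hp h1 M hM e he d hd0 hd1
  obtain ⟨X2, hX2⟩ := h3 M hM e he d hd0 hd1
  obtain ⟨η, hη⟩ : ∃ η : ℝ, η = d / 8 := ⟨_, rfl⟩
  have hη0 : 0 < η := by rw [hη]; positivity
  have hMR : (1 : ℝ) ≤ M := by exact_mod_cast hM
  have hDR : (0 : ℝ) ≤ D := Nat.cast_nonneg _
  have hlog : ∀ᶠ X : ℝ in atTop, Real.log X ≤ X ^ η := by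
    have := (isLittleO_log_rpow_atTop hη0).bound one_pos
    filter_upwards [this, eventually_ge_atTop (1 : ℝ)] with X hX hX1
    rw [one_mul, Real.norm_of_nonneg (Real.log_nonneg hX1),
      Real.norm_of_nonneg (Real.rpow_nonneg (by linarith) _)] at hX
    exact hX
  have hbig : ∀ᶠ X : ℝ in atTop, max 16 (32 * (M : ℝ) * (D + 6)) ≤ X ^ η :=
    (tendsto_rpow_atTop hη0).eventually_ge_atTop _
  obtain ⟨X3, hX3⟩ := eventually_atTop.1 (hlog.and hbig)
  refine ⟨max (max X1 X2) (max X3 16), fun X hX => ?_⟩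
  have hXX1 : X1 ≤ X := (le_max_left _ _).trans ((le_max_left _ _).trans hX)
  have hXX2 : X2 ≤ X := (le_max_right _ _).trans ((le_max_left _ _).trans hX)
  have hXX3 : X3 ≤ X := (le_max_left _ _).trans ((le_max_right _ _).trans hX)
  have hX16 : 16 ≤ X := (le_max_right _ _).trans ((le_max_right _ _).trans hX)
  obtain ⟨hL, hB⟩ := hX3 X hXX3
  have hB16 : 16 ≤ X ^ η := (le_max_left _ _).trans hB
  have hBM : 32 * (M : ℝ) * (D + 6) ≤ X ^ η := (le_max_right _ _).trans hB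
  have hX0 : 0 < X := by linarith
  have hL1 : 1 ≤ Real.log X := by
    rw [Real.le_log_iff_exp_le hX0]
    have := Real.exp_one_lt_d9
    linarith
  have hmain : X ≤ 32 * M * Real.log X ^ 4 *
      ((PP M e d X).card + 2 * Real.sqrt X * Real.log X) := by
    have e1 := (hX1 X hXX1).trans (hX2 X hXX2)
    rw [div_le_iff₀ (by positivity)] at e1
    calc X ≤ _ := e1
      _ = _ := by ring
  have hsmall : 32 * M * Real.log X ^ 4 *
      (X ^ (1 - ε) + 2 * Real.sqrt X * Real.log X + (D + 3)) ≤ X := by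
    have hL4 : Real.log X ^ 4 ≤ X ^ (4 * η) := by
      calc Real.log X ^ 4 ≤ (X ^ η) ^ 4 := pow_le_pow_left₀ (by linarith) hL 4
        _ = X ^ (4 * η) := by
            rw [← Real.rpow_natCast, ← Real.rpow_mul hX0.le]
            congr 1
            push_cast
            ring
    have a1 : X ^ (1 - ε) ≤ X ^ (1 - 5 * η) :=
      Real.rpow_le_rpow_of_exponent_le (by linarith) (by rw [hη]; linarith)
    have a2 : Real.sqrt X * Real.log X ≤ X ^ (1 - 5 * η) := by
      rw [Real.sqrt_eq_rpow]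
      calc X ^ (1 / 2 : ℝ) * Real.log X ≤ X ^ (1 / 2 : ℝ) * X ^ η :=
            mul_le_mul_of_nonneg_left hL (Real.rpow_nonneg hX0.le _)
        _ = X ^ (1 / 2 + η) := (Real.rpow_add hX0 _ _).symm
        _ ≤ _ := Real.rpow_le_rpow_of_exponent_le (by linarith) (by rw [hη]; linarith)
    have a3 : (1 : ℝ) ≤ X ^ (1 - 5 * η) := Real.one_le_rpow (by linarith) (by rw [hη]; linarith)
    have a4 : X ^ (1 - ε) + 2 * Real.sqrt X * Real.log X + (D + 3) ≤
        (D + 6) * X ^ (1 - 5 * η) := by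
      have a5 : ((D : ℝ) + 3) * 1 ≤ (D + 3) * X ^ (1 - 5 * η) :=
        mul_le_mul_of_nonneg_left a3 (by linarith)
      linarith
    have a6 : 0 ≤ X ^ (1 - ε) + 2 * Real.sqrt X * Real.log X + (D + 3) := by positivity
    have a7 : X ^ (4 * η) * X ^ (1 - 5 * η) = X ^ (1 - η) := by
      rw [← Real.rpow_add hX0]
      congr 1
      ring
    calc 32 * M * Real.log X ^ 4 * (X ^ (1 - ε) + 2 * Real.sqrt X * Real.log X + (D + 3))
        ≤ 32 * M * X ^ (4 * η) * ((D + 6) * X ^ (1 - 5 * η)) := by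
          apply mul_le_mul _ a4 a6 (by positivity)
          exact mul_le_mul_of_nonneg_left hL4 (by positivity)
      _ = 32 * (M : ℝ) * (D + 6) * (X ^ (4 * η) * X ^ (1 - 5 * η)) := by ring
      _ = 32 * (M : ℝ) * (D + 6) * X ^ (1 - η) := by rw [a7]
      _ ≤ X ^ η * X ^ (1 - η) :=
          mul_le_mul_of_nonneg_right hBM (Real.rpow_nonneg hX0.le _)
      _ = X := by
          rw [← Real.rpow_add hX0]
          have : η + (1 - η) = 1 := by ring
          rw [this, Real.rpow_one]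
  have hPP : X ^ (1 - ε) + (D + 3) ≤ ((PP M e d X).card : ℝ) := by
    have h4 := le_of_mul_le_mul_left (hsmall.trans hmain) (by positivity)
    linarith
  refine ⟨(PP M e d X).filter (fun p => 2 < p ∧ ¬ p ∣ D),
    ⌊4 * X ^ (1 / 2 + 2 * d)⌋₊.factorial ^ 2, by positivity, ?_, ?_, ?_⟩
  · intro p hpS
    rw [mem_filter] at hpS
    obtain ⟨hpP, hp2, hpD⟩ := hpS
    unfold PP at hpP
    rw [mem_filter, mem_Icc] at hpP
    obtain ⟨⟨-, hpX⟩, hpp, hpM, q, hq, hqd⟩ := hpP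
    have hpX' : (p : ℝ) ≤ X := (Nat.cast_le.2 hpX).trans (Nat.floor_le hX0.le)
    exact ⟨hpp, hp2, hpX', hpD, hpM, prm_dvd (by linarith) hd0 he hp2 hpX' hq hqd⟩
  · have h4 := prm_card (M := M) (e := e) (d := d) (X := X) hD
      (S := (PP M e d X).filter (fun p => 2 < p ∧ ¬ p ∣ D))
      (fun p hp1 hp2 hp3 => mem_filter.2 ⟨hp1, hp2, hp3⟩)
    have h5 : ((PP M e d X).card : ℝ) ≤
        (((PP M e d X).filter (fun p => 2 < p ∧ ¬ p ∣ D)).card : ℝ) + (D + 3) := by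
      exact_mod_cast h4
    linarith
  · refine (prm_log (by linarith) hd0 hd1).trans ?_
    have hs : 0 ≤ X ^ (1 / 2 + 2 * d) := Real.rpow_nonneg hX0.le _
    calc 16 * X ^ (1 / 2 + 2 * d) * Real.log X
        ≤ X ^ η * X ^ (1 / 2 + 2 * d) * X ^ η :=
          mul_le_mul (mul_le_mul_of_nonneg_right hB16 hs) hL (by linarith) (by positivity)
      _ = X ^ (η + (1 / 2 + 2 * d) + η) := by
          rw [Real.rpow_add hX0 (η + (1 / 2 + 2 * d)) η, Real.rpow_add hX0 η (1 / 2 + 2 * d)]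
      _ ≤ X ^ (1 / 2 + ε) :=
          Real.rpow_le_rpow_of_exponent_le (by linarith) (by rw [hη]; linarith)

end Pool.Agent.H318R5.DC
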